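import Pool.Graph.R_seed8.Helper563.Dom.Ex

/-!
# Invariant subspaces of index at least two: every such subspace has a subspace of codimension one
whose extremal function does not dominate
-/

set_option autoImplicit false

namespace Pool.Agent.H56.Dom

open Pool.Agent.H563Dom
open MeasureTheory Filter Topology Complex ComplexConjugate Metric
open scoped ENNReal

lemma T_apply_zero (α : L2) : T α 0 = 0 := rfl

lemma T_apply_succ (α : L2) (n : ℕ) :
    T α (n + 1) = α n * (Real.sqrt (((n : ℝ) + 1) / ((n : ℝ) + 2)) : ℂ) := rfl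

lemma T_add (α β : L2) : T (α + β) = T α + T β := by
  apply lp.ext
  funext n
  rw [lp.coeFn_add, Pi.add_apply]
  cases n with
  | zero => rw [T_apply_zero, T_apply_zero, T_apply_zero, add_zero]
  | succ n => rw [T_apply_succ, T_apply_succ, T_apply_succ, lp.coeFn_add, Pi.add_apply]; ring

lemma T_smul (c : ℂ) (α : L2) : T (c • α) = c • T α := by
  apply lp.ext
  funext n
  rw [lp.coeFn_smul, Pi.smul_apply]
  cases n with
  | zero => rw [T_apply_zero, T_apply_zero, smul_zero]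
  | succ n =>
    rw [T_apply_succ, T_apply_succ, lp.coeFn_smul, Pi.smul_apply, smul_eq_mul, smul_eq_mul]
    ring

lemma norm_T_sq (α : L2) :
    HasSum (fun n : ℕ => ‖α n‖ ^ 2 * (((n : ℝ) + 1) / ((n : ℝ) + 2))) (‖T α‖ ^ 2) := by
  have h1 := norm_sq_eq (T α)
  rw [← hasSum_nat_add_iff' 1] at h1
  have h3 : ∑ i ∈ Finset.range 1, ‖T α i‖ ^ 2 = 0 := by
    rw [Finset.sum_range_one, T_apply_zero]
    simp
  rw [h3, sub_zero] at h1
  refine h1.congr_fun fun n => ?_
  rw [T_apply_succ, norm_mul, mul_pow, Complex.norm_real, Real.norm_of_nonneg (Real.sqrt_nonneg _),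
    Real.sq_sqrt (by positivity)]

lemma norm_T_le (α : L2) : ‖T α‖ ≤ ‖α‖ := by
  have h1 : ‖T α‖ ^ 2 ≤ ‖α‖ ^ 2 := by
    refine hasSum_le (fun n => ?_) (norm_T_sq α) (norm_sq_eq α)
    apply mul_le_of_le_one_right (by positivity)
    rw [div_le_one (by positivity)]
    linarith
  nlinarith [norm_nonneg α, norm_nonneg (T α)]

lemma le_norm_T (α : L2) : ‖α‖ ≤ 2 * ‖T α‖ := by
  have h1 : ‖α‖ ^ 2 * (1 / 2) ≤ ‖T α‖ ^ 2 := by
    refine hasSum_le (fun n => ?_) ((norm_sq_eq α).mul_right (1 / 2)) (norm_T_sq α)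
    apply mul_le_mul_of_nonneg_left _ (by positivity)
    rw [div_le_div_iff₀ (by norm_num) (by positivity)]
    have : (0 : ℝ) ≤ n := by positivity
    linarith
  nlinarith [norm_nonneg α, norm_nonneg (T α)]

/-- the shift as a continuous linear map -/
noncomputable def TL : L2 →L[ℂ] L2 :=
  LinearMap.mkContinuous ⟨⟨T, T_add⟩, T_smul⟩ 1 (fun α => by
    rw [one_mul]
    exact norm_T_le α)

lemma TL_apply (α : L2) : TL α = T α := rfl

lemma closed_map (V : Submodule ℂ L2) (hV : IsClosed (V : Set L2)) :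
    IsClosed ((V.map TL.toLinearMap : Submodule ℂ L2) : Set L2) := by
  have h1 : AntilipschitzWith 2 TL := TL.antilipschitz_of_bound (K := 2) (fun x => by
    rw [TL_apply]
    exact_mod_cast le_norm_T x)
  have h2 := (h1.isClosedEmbedding TL.uniformContinuous).isClosedMap _ hV
  rw [Submodule.map_coe]
  exact h2

/-- vectors for an invariant subspace of index at least two -/
lemma exists_vectors (V : Submodule ℂ L2) (hV : IsClosed (V : Set L2)) (hT : ∀ α ∈ V, T α ∈ V)
    (f g : L2) (hf : f ∈ V) (hg : g ∈ V)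
    (hind : ∀ a b : ℂ, ∀ κ ∈ V, a • f + b • g = T κ → a = 0 ∧ b = 0)
    (x1 : L2) (hx1 : x1 ∈ V) (hx10 : x1 0 ≠ 0) :
    ∃ H ∈ V, ∃ K ∈ V, ‖H‖ = 1 ∧ ‖K‖ = 1 ∧ inner ℂ H K = 0 ∧
      (∃ p : ℝ, 0 < p ∧ ∀ α ∈ V, α 0 = (p : ℂ) * inner ℂ H α) ∧
      (∀ α ∈ V, inner ℂ H (T α) = 0) ∧ (∀ α ∈ V, inner ℂ K (T α) = 0) := by
  -- an element which vanishes at `0` and does not belong to `T V`
  obtain ⟨x2, hx2, hx20, hx2T⟩ : ∃ x2 ∈ V, x2 0 = 0 ∧ ∀ κ ∈ V, x2 ≠ T κ := by
    by_cases h0 : f 0 = 0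
    · refine ⟨f, hf, h0, ?_⟩
      intro κ hκ he
      have := (hind 1 0 κ hκ (by rw [one_smul, zero_smul, add_zero]; exact he)).1
      exact one_ne_zero this
    · refine ⟨(g 0) • f + (-(f 0)) • g, V.add_mem (V.smul_mem _ hf) (V.smul_mem _ hg), ?_, ?_⟩
      · rw [lp.coeFn_add, Pi.add_apply, lp.coeFn_smul, lp.coeFn_smul, Pi.smul_apply, Pi.smul_apply,
          smul_eq_mul, smul_eq_mul]
        ring
      · intro κ hκ he
        have := (hind _ _ κ hκ he).2
        exact h0 (neg_eq_zero.1 this)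
  obtain ⟨W, hW⟩ : ∃ W : Submodule ℂ L2, W = V.map TL.toLinearMap := ⟨_, rfl⟩
  have hWc : IsClosed (W : Set L2) := by rw [hW]; exact closed_map V hV
  have : CompleteSpace V := hV.completeSpace_coe
  have : CompleteSpace W := hWc.completeSpace_coe
  have hx2W : x2 ∉ W := by
    intro h
    rw [hW, Submodule.mem_map] at h
    obtain ⟨κ, hκ, he⟩ := h
    exact hx2T κ hκ he.symm
  obtain ⟨q, hq⟩ : ∃ q : L2, q = x2 - W.starProjection x2 := ⟨_, rfl⟩
  have hqW : ∀ β ∈ W, inner ℂ q β = 0 := by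
    intro β hβ
    rw [hq]
    exact W.starProjection_inner_eq_zero x2 β hβ
  have hq0 : q ≠ 0 := by
    intro h
    apply hx2W
    rw [hq, sub_eq_zero] at h
    rw [h]
    exact W.starProjection_apply_mem x2
  have hqx2 : inner ℂ q x2 ≠ 0 := by
    have h1 : inner ℂ q x2 = inner ℂ q q := by
      have h2 : x2 = q + W.starProjection x2 := by rw [hq]; abel
      calc inner ℂ q x2 = inner ℂ q (q + W.starProjection x2) := by rw [← h2]
        _ = inner ℂ q q + inner ℂ q (W.starProjection x2) := inner_add_right _ _ _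
        _ = inner ℂ q q := by rw [hqW _ (W.starProjection_apply_mem x2), add_zero]
    rw [h1]
    exact inner_self_ne_zero.2 hq0
  obtain ⟨e, he⟩ : ∃ e : L2, e = lp.single 2 0 (1 : ℂ) := ⟨_, rfl⟩
  have hee : ∀ α : L2, inner ℂ e α = α 0 := by
    intro α
    rw [he, lp.inner_single_left]
    simp
  obtain ⟨H, hH, K, hK, h1, h2, h3, ⟨p, hp, h4⟩, h5, h6⟩ := hilb V T e q x1 x2 hx1 hx2
    (by rw [hee]; exact hx10) (by rw [hee]; exact hx20) hqx2 hT
    (by intro α _; rw [hee]; rfl)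
    (by
      intro α hα
      apply hqW
      rw [hW, Submodule.mem_map]
      exact ⟨α, hα, rfl⟩)
  refine ⟨H, hH, K, hK, h1, h2, h3, ⟨p, hp, ?_⟩, h5, h6⟩
  intro α hα
  rw [← hee]
  exact h4 α hα

/-- the subspace of the model which belongs to an invariant subspace -/
noncomputable def VV (J : Set (ℂ → ℂ)) (hJ : IsInvSubspace J) : Submodule ℂ L2 where
  carrier := {α | fn α ∈ J}
  add_mem' := by
    intro α β hα hβ
    refine hJ.ext _ (hJ.add _ hα _ hβ) _ ?_
    intro z hz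
    have h1 : IsPS (coef (α + β)) (fun z => fn α z + fn β z) := by
      rw [coef_add]
      exact (isPS_fn α).add (isPS_fn β)
    exact (isPS_fn (α + β)).eqOn h1 z hz
  zero_mem' := by
    refine hJ.ext _ hJ.zero _ ?_
    intro z _
    simp [fn, coef]
  smul_mem' := by
    intro c α hα
    refine hJ.ext _ (hJ.smul c _ hα) _ ?_
    intro z hz
    have h1 : IsPS (coef (c • α)) (fun z => c * fn α z) := by
      rw [coef_smul]
      exact (isPS_fn α).smul c
    exact (isPS_fn (c • α)).eqOn h1 z hz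

lemma mem_VV {J : Set (ℂ → ℂ)} (hJ : IsInvSubspace J) (α : L2) : α ∈ VV J hJ ↔ fn α ∈ J := Iff.rfl

lemma Fn_VV {J : Set (ℂ → ℂ)} (hJ : IsInvSubspace J) : Fn (VV J hJ) = J := by
  ext f
  constructor
  · rintro ⟨α, hα, hf⟩
    exact hJ.ext (fn α) hα f (fun z hz => hf.eqOn (isPS_fn α) z hz)
  · intro hf
    obtain ⟨α, hα⟩ := exists_model (hJ.bergman f hf)
    exact ⟨α, hJ.ext f hf (fn α) (fun z hz => (isPS_fn α).eqOn hα z hz), hα⟩

lemma closed_VV {J : Set (ℂ → ℂ)} (hJ : IsInvSubspace J) : IsClosed (VV J hJ : Set L2) := by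
  apply IsSeqClosed.isClosed
  intro u α hu hlim
  refine hJ.closed (fun n => fn (u n)) (fn α) hu (memBergman_of_isPS (isPS_fn α)) ?_
  have h1 : ∀ n, normSq (fun z => fn (u n) z - fn α z) = ENNReal.ofReal (‖u n - α‖ ^ 2) := fun n =>
    normSq_model (isPS_sub (isPS_fn (u n)) (isPS_fn α))
  simp only [h1]
  have h2 : Tendsto (fun n => ‖u n - α‖ ^ 2) atTop (𝓝 0) := by
    have h3 := (tendsto_iff_norm_sub_tendsto_zero.1 hlim).pow 2
    simpa using h3
  have h4 := (ENNReal.continuous_ofReal.tendsto 0).comp h2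
  rw [ENNReal.ofReal_zero] at h4
  exact h4

lemma T_VV {J : Set (ℂ → ℂ)} (hJ : IsInvSubspace J) : ∀ α ∈ VV J hJ, T α ∈ VV J hJ := by
  intro α hα
  exact hJ.ext _ (hJ.z_mul _ hα) _ (fun z hz => (isPS_fn (T α)).eqOn (isPS_T (isPS_fn α)) z hz)

/-- **Domination fails.** -/
theorem fails (J : Submodule ℂ L2) (hJc : IsClosed (J : Set L2)) (hTJ : ∀ α ∈ J, T α ∈ J)
    (H : L2) (hHJ : H ∈ J) (K : L2) (hKJ : K ∈ J) (hH1 : ‖H‖ = 1) (hK1 : ‖K‖ = 1)
    (hHK : inner ℂ H K = 0) (p : ℝ) (hp : 0 < p) (hpJ : ∀ α ∈ J, α 0 = (p : ℂ) * inner ℂ H α)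
    (hHT : ∀ α ∈ J, inner ℂ H (T α) = 0) (hKT : ∀ α ∈ J, inner ℂ K (T α) = 0)
    (ε : ℝ) (hε : 0 < ε) :
    ∃ I : Set (ℂ → ℂ), IsInvSubspace I ∧ I ⊆ Fn J ∧ (∀ f ∈ Fn J, (fun z => z * f z) ∈ I) ∧
      (∃ g ∈ Fn J, g ∉ I ∧ ∀ f ∈ Fn J, ∃ a : ℂ, (fun z => f z - a * g z) ∈ I) ∧
      (∃ f ∈ I, f 0 ≠ 0) ∧ ∃ HI : ℂ → ℂ, IsExtremal I HI ∧
        normSq (fun z => HI z - fn H z) < ENNReal.ofReal ε ∧
        ∃ h : Polynomial ℂ, MemBergman (fun z => h.eval z) ∧
          normSq (fun z => HI z * h.eval z) < normSq (fun z => fn H z * h.eval z) := by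
  have hHH : inner ℂ H H = (1 : ℂ) := by rw [inner_self_eq_norm_sq_to_K, hH1]; simp
  have hKK : inner ℂ K K = (1 : ℂ) := by rw [inner_self_eq_norm_sq_to_K, hK1]; simp
  have hKH : inner ℂ K H = (0 : ℂ) := by rw [← inner_conj_symm, hHK, map_zero]
  have hf0 : fn H 0 ≠ 0 := by
    rw [(isPS_fn H).at_zero, coef_zero, hpJ H hHJ, hHH, mul_one]
    exact_mod_cast hp.ne'
  have hK0 : K ≠ 0 := by
    intro h
    rw [h, norm_zero] at hK1
    exact zero_ne_one hK1
  obtain ⟨h, hh⟩ := exists_poly (isPS_fn H) (isPS_fn K) hf0 hK0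
  set C := ∫ z, (fn H z * h.eval z) * conj (fn K z * h.eval z) ∂μD with hC
  have hhc : Continuous fun z : ℂ => h.eval z := h.continuous
  have hLH : MemLp (fun z => fn H z * h.eval z) 2 μD := memLp_mul (memLp_of_isPS (isPS_fn H)) hhc
  have hLK : MemLp (fun z => fn K z * h.eval z) 2 μD := memLp_mul (memLp_of_isPS (isPS_fn K)) hhc
  set A := ∫ z, ‖fn H z * h.eval z‖ ^ 2 ∂μD with hA
  set B := ∫ z, ‖fn K z * h.eval z‖ ^ 2 ∂μD with hB
  have hA0 : 0 ≤ A := integral_nonneg fun z => by positivity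
  have hB0 : 0 ≤ B := integral_nonneg fun z => by positivity
  have hCn : 0 < ‖C‖ := norm_pos_iff.2 hh
  -- parameters
  obtain ⟨s₀, hs₀⟩ : ∃ s₀ : ℝ, s₀ = ‖C‖ / (2 * (B + 1 + ‖C‖)) := ⟨_, rfl⟩
  have hs₀0 : 0 < s₀ := by rw [hs₀]; positivity
  have hs₀1 : s₀ < 1 / 2 := by
    rw [hs₀, div_lt_div_iff₀ (by positivity) (by norm_num)]
    nlinarith
  have hs₀B : s₀ * B < ‖C‖ := by
    rw [hs₀, div_mul_eq_mul_div, div_lt_iff₀ (by positivity)]
    nlinarith
  obtain ⟨s, hs⟩ : ∃ s : ℝ, s = s₀ * min 1 ε := ⟨_, rfl⟩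
  have hm0 : 0 < min 1 ε := lt_min one_pos hε
  have hm1 : min 1 ε ≤ 1 := min_le_left _ _
  have hmε : min 1 ε ≤ ε := min_le_right _ _
  have hs0 : 0 < s := by rw [hs]; exact mul_pos hs₀0 hm0
  have hss₀ : s ≤ s₀ := by rw [hs]; exact mul_le_of_le_one_right hs₀0.le hm1
  have hs1 : s < 1 / 2 := lt_of_le_of_lt hss₀ hs₀1
  have hsB : s * B < ‖C‖ := lt_of_le_of_lt (mul_le_mul_of_nonneg_right hss₀ hB0) hs₀B
  have hsε : 2 * s ^ 2 < ε := by
    have h1 : s ≤ 1 / 2 * ε := by
      rw [hs]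
      exact mul_le_mul hs₀1.le hmε hm0.le (by norm_num)
    nlinarith
  set c : ℝ := Real.sqrt (1 - s ^ 2) with hc
  have hc2 : c ^ 2 = 1 - s ^ 2 := Real.sq_sqrt (by nlinarith)
  have hc12 : 1 / 2 < c := by
    rw [hc, Real.lt_sqrt (by norm_num)]
    nlinarith
  have hc0 : 0 < c := by linarith
  set ω : ℂ := -(C / (‖C‖ : ℂ)) with hω
  have hCc : (‖C‖ : ℂ) ≠ 0 := by exact_mod_cast hCn.ne'
  have hωω : conj ω * ω = 1 := by
    rw [hω, map_neg, neg_mul_neg, map_div₀, Complex.conj_ofReal, div_mul_div_comm,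
      mul_comm (conj C) C, Complex.mul_conj, Complex.normSq_eq_norm_sq]
    push_cast
    field_simp
  have hωC : (conj ω * C).re = -‖C‖ := by
    rw [hω, map_neg, neg_mul, map_div₀, Complex.conj_ofReal, div_mul_eq_mul_div,
      mul_comm (conj C) C, Complex.mul_conj, Complex.normSq_eq_norm_sq, Complex.neg_re]
    have : ((‖C‖ ^ 2 : ℝ) : ℂ) / (‖C‖ : ℂ) = ((‖C‖ : ℝ) : ℂ) := by
      push_cast
      field_simp
    rw [this, Complex.ofReal_re]
  -- the vectors
  set G : L2 := (c : ℂ) • H + ((s : ℂ) * ω) • K with hG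
  set L : L2 := (s : ℂ) • H - ((c : ℂ) * ω) • K with hL
  have hGJ : G ∈ J := J.add_mem (J.smul_mem _ hHJ) (J.smul_mem _ hKJ)
  have hcc : (c : ℂ) * c = 1 - (s : ℂ) * s := by
    have : ((c ^ 2 : ℝ) : ℂ) = ((1 - s ^ 2 : ℝ) : ℂ) := by rw [hc2]
    push_cast at this
    linear_combination this
  have hGin : ∀ α, inner ℂ G α = (c : ℂ) * inner ℂ H α + (s : ℂ) * conj ω * inner ℂ K α := by
    intro α
    rw [hG, inner_add_left, inner_smul_left, inner_smul_left, Complex.conj_ofReal, map_mul,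
      Complex.conj_ofReal]
  have hLin : ∀ α, inner ℂ L α = (s : ℂ) * inner ℂ H α - (c : ℂ) * conj ω * inner ℂ K α := by
    intro α
    rw [hL, inner_sub_left, inner_smul_left, inner_smul_left, Complex.conj_ofReal, map_mul,
      Complex.conj_ofReal]
  have hHG : inner ℂ H G = (c : ℂ) := by
    rw [hG, inner_add_right, inner_smul_right, inner_smul_right, hHH, hHK]
    ring
  have hKG : inner ℂ K G = (s : ℂ) * ω := by
    rw [hG, inner_add_right, inner_smul_right, inner_smul_right, hKH, hKK]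
    ring
  have hGG : inner ℂ G G = (1 : ℂ) := by
    rw [hGin, hHG, hKG]
    linear_combination hcc + (s : ℂ) * s * hωω
  have hG1 : ‖G‖ = 1 := by
    have h1 := @inner_self_eq_norm_sq_to_K ℂ L2 _ _ _ G
    rw [hGG] at h1
    have h2 : ((‖G‖ ^ 2 : ℝ) : ℂ) = ((1 : ℝ) : ℂ) := by
      push_cast
      exact h1.symm
    have h3 : ‖G‖ ^ 2 = 1 := Complex.ofReal_injective h2
    nlinarith [norm_nonneg G]
  have hLG : inner ℂ L G = (0 : ℂ) := by
    rw [hLin, hHG, hKG]
    linear_combination (-(c : ℂ) * s) * hωω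
  set I : Submodule ℂ L2 := J ⊓ (Submodule.span ℂ {L})ᗮ with hI
  have hImem : ∀ α, α ∈ I ↔ α ∈ J ∧ inner ℂ L α = 0 := by
    intro α
    rw [hI, Submodule.mem_inf, Submodule.mem_orthogonal_singleton_iff_inner_right]
  have hIc : IsClosed (I : Set L2) := by
    rw [hI, Submodule.coe_inf]
    exact hJc.inter (Submodule.isClosed_orthogonal _)
  have hTI : ∀ α ∈ I, T α ∈ I := by
    intro α hα
    rw [hImem] at hα ⊢
    refine ⟨hTJ α hα.1, ?_⟩
    rw [hLin, hHT α hα.1, hKT α hα.1]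
    ring
  have hGI : G ∈ I := (hImem G).2 ⟨hGJ, hLG⟩
  have hIe : ∀ α ∈ I, α 0 = ((p * c : ℝ) : ℂ) * inner ℂ G α := by
    intro α hα
    rw [hImem] at hα
    rw [hpJ α hα.1, hGin]
    have h1 := hα.2
    rw [hLin] at h1
    push_cast
    linear_combination (p : ℂ) * s * h1 - (p : ℂ) * inner ℂ H α * hcc
  have hIex := isExtremal_Fn I hGI hG1 (show 0 < p * c by positivity) hIe
  have hfnG : ∀ z ∈ ball (0 : ℂ) 1, fn G z = c * fn H z + s * ω * fn K z := by
    have h1 : IsPS (coef G) (fun z => c * fn H z + s * ω * fn K z) := by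
      rw [hG, coef_add, coef_smul, coef_smul]
      exact ((isPS_fn H).smul _).add ((isPS_fn K).smul _)
    exact (isPS_fn G).eqOn h1
  have hLL : inner ℂ L L = (1 : ℂ) := by
    have h1 : inner ℂ H L = (s : ℂ) := by
      rw [hL, inner_sub_right, inner_smul_right, inner_smul_right, hHH, hHK]
      ring
    have h2 : inner ℂ K L = -((c : ℂ) * ω) := by
      rw [hL, inner_sub_right, inner_smul_right, inner_smul_right, hKH, hKK]
      ring
    rw [hLin, h1, h2]
    linear_combination hcc + (c : ℂ) * c * hωω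
  have hLJ : L ∈ J := J.sub_mem (J.smul_mem _ hHJ) (J.smul_mem _ hKJ)
  refine ⟨Fn I, isInv_Fn I hIc hTI, ?_, ?_, ?_, ?_, fn G, hIex, ?_, h, ?_, ?_⟩
  · rintro f ⟨α, hα, hf⟩
    exact ⟨α, ((hImem α).1 hα).1, hf⟩
  · rintro f ⟨α, hα, hf⟩
    refine ⟨T α, (hImem _).2 ⟨hTJ α hα, ?_⟩, isPS_T hf⟩
    rw [hLin, hHT α hα, hKT α hα]
    ring
  · refine ⟨fn L, ⟨L, hLJ, isPS_fn L⟩, ?_, ?_⟩
    · rintro ⟨β, hβ, hb⟩
      have h1 : β = L := coef_inj (hb.unique (isPS_fn L))
      rw [h1, hImem, hLL] at hβ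
      exact one_ne_zero hβ.2
    · rintro f ⟨α, hα, hf⟩
      refine ⟨inner ℂ L α, α - (inner ℂ L α) • L, (hImem _).2 ⟨J.sub_mem hα (J.smul_mem _ hLJ), ?_⟩, ?_⟩
      · rw [inner_sub_right, inner_smul_right, hLL]
        ring
      · apply isPS_sub hf
        rw [coef_smul]
        exact (isPS_fn L).smul _
  · refine ⟨fn G, ⟨G, hGI, isPS_fn G⟩, ?_⟩
    rw [(isPS_fn G).at_zero, coef_zero, hIe G hGI, hGG, mul_one]
    exact_mod_cast (mul_pos hp hc0).ne'
  · rw [normSq_model (isPS_sub (isPS_fn G) (isPS_fn H))]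
    apply (ENNReal.ofReal_lt_ofReal_iff hε).2
    have h1 : ‖G - H‖ ^ 2 = 2 - 2 * c := by
      have h2 := @norm_sub_sq ℂ L2 _ _ _ G H
      have h3 : RCLike.re (inner ℂ G H) = c := by
        have h4 : inner ℂ G H = (c : ℂ) := by
          rw [hGin, hHH, hKH]
          ring
        rw [h4]
        simp
      rw [h2, hG1, hH1, h3]
      ring
    rw [h1]
    have hc1 : c ≤ 1 := by nlinarith [sq_nonneg s]
    nlinarith
  · refine ⟨h.differentiable.differentiableOn, ?_⟩
    have h1 : MemLp (fun z : ℂ => h.eval z) 2 μD := by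
      have h2 : MemLp (fun _ : ℂ => (1 : ℂ)) 2 μD := memLp_const 1
      simpa using memLp_mul h2 hhc
    rw [normSq_eq h1]
    exact ENNReal.ofReal_lt_top
  · have hLG2 : MemLp (fun z => fn G z * h.eval z) 2 μD :=
      memLp_mul (memLp_of_isPS (isPS_fn G)) hhc
    rw [normSq_eq hLG2, normSq_eq hLH, ENNReal.ofReal_lt_ofReal_iff_of_nonneg
      (mul_nonneg (by positivity) (integral_nonneg fun z => by positivity))]
    apply mul_lt_mul_of_pos_left _ (inv_pos.2 Real.pi_pos)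
    have hIC : Integrable (fun z => (fn H z * h.eval z) * conj (fn K z * h.eval z)) μD :=
      hLH.integrable_mul hLK.star
    have hexp : ∫ z, ‖fn G z * h.eval z‖ ^ 2 ∂μD =
        c ^ 2 * A + s ^ 2 * B + 2 * c * s * (conj ω * C).re := by
      have h1 : (fun z => ‖fn G z * h.eval z‖ ^ 2) =ᵐ[μD] fun z =>
          (c ^ 2 * ‖fn H z * h.eval z‖ ^ 2 + s ^ 2 * ‖fn K z * h.eval z‖ ^ 2) +
          2 * c * s * (conj ω * ((fn H z * h.eval z) * conj (fn K z * h.eval z))).re := by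
        filter_upwards [ae_restrict_mem measurableSet_ball] with z hz
        rw [hfnG z hz]
        set a := fn H z * h.eval z with ha
        set b := fn K z * h.eval z with hb
        have e1 : (c * fn H z + s * ω * fn K z) * h.eval z = c * a + s * ω * b := by
          rw [ha, hb]; ring
        rw [e1, ← Complex.normSq_eq_norm_sq, ← Complex.normSq_eq_norm_sq,
          ← Complex.normSq_eq_norm_sq, Complex.normSq_add]
        have e2 : Complex.normSq (c * a) = c ^ 2 * Complex.normSq a := by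
          rw [Complex.normSq_mul, Complex.normSq_ofReal]; ring
        have hω2 : Complex.normSq ω = 1 := by
          have : ((Complex.normSq ω : ℝ) : ℂ) = 1 := by
            rw [← Complex.mul_conj, mul_comm]; exact hωω
          exact_mod_cast this
        have e3 : Complex.normSq (s * ω * b) = s ^ 2 * Complex.normSq b := by
          rw [Complex.normSq_mul, Complex.normSq_mul, Complex.normSq_ofReal, hω2]; ring
        rw [e2, e3]
        congr 1
        have e4 : (c : ℂ) * a * conj (s * ω * b) = ((c * s : ℝ) : ℂ) * (conj ω * (a * conj b)) := by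
          simp only [map_mul, Complex.conj_ofReal]
          push_cast
          ring
        rw [e4, Complex.re_ofReal_mul]
        ring
      rw [integral_congr_ae h1, integral_add, integral_add, integral_const_mul, integral_const_mul,
        integral_const_mul]
      · congr 1
        congr 1
        have h2 := (hIC.const_mul (conj ω))
        have h3 : ∫ z, (conj ω * ((fn H z * h.eval z) * conj (fn K z * h.eval z))).re ∂μD =
            (∫ z, conj ω * ((fn H z * h.eval z) * conj (fn K z * h.eval z)) ∂μD).re :=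
          integral_re h2
        rw [h3, integral_const_mul]
      · exact (hLH.norm.integrable_sq).const_mul _
      · exact (hLK.norm.integrable_sq).const_mul _
      · exact ((hLH.norm.integrable_sq).const_mul _).add ((hLK.norm.integrable_sq).const_mul _)
      · exact ((hIC.const_mul (conj ω)).re).const_mul _
    rw [hexp, hωC, hc2]
    have h2 : s * (s * B) < s * ‖C‖ := mul_lt_mul_of_pos_left hsB hs0
    have h3 : s * ‖C‖ ≤ 2 * c * s * ‖C‖ := by
      have : 1 ≤ 2 * c := by linarith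
      nlinarith [mul_pos hs0 hCn]
    have h4 : 0 ≤ s ^ 2 * A := by positivity
    nlinarith

end Pool.Agent.H56.Dom
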